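import Pool.Agent.H97.NR.Stmts

/-! Matrix form of the equivalence relations of project NR. -/

set_option linter.unusedVariables false

namespace Pool.NR.H36

open Matrix

variable {p : ℕ} {n m : ℕ}

/-- action of `h` on a family of matrices -/
def act (h : Matrix (Fin m) (Fin m) (ZMod p)) (M : Fin m → Matrix (Fin n) (Fin n) (ZMod p)) :
    Fin m → Matrix (Fin n) (Fin n) (ZMod p) := fun l => ∑ k, h l k • M k

def cj (g : Matrix (Fin n) (Fin n) (ZMod p)) (M : Matrix (Fin n) (Fin n) (ZMod p)) :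
    Matrix (Fin n) (Fin n) (ZMod p) := gᵀ * M * g

theorem cj_mul (g g' M : Matrix (Fin n) (Fin n) (ZMod p)) : cj (g * g') M = cj g' (cj g M) := by
  simp only [cj, Matrix.transpose_mul, Matrix.mul_assoc]

theorem cj_one (M : Matrix (Fin n) (Fin n) (ZMod p)) : cj 1 M = M := by
  simp [cj]

theorem cj_smul (g : Matrix (Fin n) (Fin n) (ZMod p)) (r : ZMod p)
    (M : Matrix (Fin n) (Fin n) (ZMod p)) : cj g (r • M) = r • cj g M := by
  simp [cj]

theorem act_mul (h h' : Matrix (Fin m) (Fin m) (ZMod p))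
    (M : Fin m → Matrix (Fin n) (Fin n) (ZMod p)) : act (h * h') M = act h (act h' M) := by
  funext l
  simp only [act, Matrix.mul_apply, Finset.sum_smul, Finset.smul_sum, mul_smul]
  rw [Finset.sum_comm]

theorem act_one (M : Fin m → Matrix (Fin n) (Fin n) (ZMod p)) : act 1 M = M := by
  funext l
  simp [act, Matrix.one_apply]

theorem cj_act (g : Matrix (Fin n) (Fin n) (ZMod p)) (h : Matrix (Fin m) (Fin m) (ZMod p))
    (M : Fin m → Matrix (Fin n) (Fin n) (ZMod p)) (l : Fin m) :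
    cj g (act h M l) = act h (fun k => cj g (M k)) l := by
  simp only [act, cj, Matrix.mul_sum, Matrix.sum_mul, Matrix.mul_smul, Matrix.smul_mul]

theorem cj_apply (g : Matrix (Fin n) (Fin n) (ZMod p)) (B : Fin n → Fin n → ZMod p)
    (i j : Fin n) : cj g (Matrix.of B) i j = ∑ k, ∑ l, g k i * g l j * B k l := by
  simp only [cj, Matrix.mul_apply, Matrix.transpose_apply, Matrix.of_apply, Finset.sum_mul]
  rw [Finset.sum_comm]
  refine Finset.sum_congr rfl fun k _ => Finset.sum_congr rfl fun l _ => ?_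
  ring

theorem eq_iff (g : Matrix (Fin n) (Fin n) (ZMod p)) (r : ZMod p)
    (B B' : Fin n → Fin n → ZMod p) :
    (∀ i j, r * B' i j = ∑ k, ∑ l, g k i * g l j * B k l) ↔
      r • Matrix.of B' = cj g (Matrix.of B) := by
  constructor
  · intro h
    ext i j
    rw [cj_apply]
    simpa using h i j
  · intro h i j
    rw [← cj_apply, ← h]
    simp

theorem fam_iff (g : Matrix (Fin n) (Fin n) (ZMod p)) (h : Matrix (Fin m) (Fin m) (ZMod p))
    (B B' : Fin m → Fin n → Fin n → ZMod p) :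
    (∀ i j l, ∑ k, h l k * B' k i j = ∑ a, ∑ b, g a i * g b j * B l a b) ↔
      ∀ l, act h (fun k => Matrix.of (B' k)) l = cj g (Matrix.of (B l)) := by
  constructor
  · intro H l
    ext i j
    rw [cj_apply]
    simpa [act, Matrix.sum_apply] using H i j l
  · intro H i j l
    rw [← cj_apply, ← H l]
    simp [act, Matrix.sum_apply]

theorem det_inv_ne [Fact p.Prime] {g : Matrix (Fin n) (Fin n) (ZMod p)} (hg : g.det ≠ 0) :
    g⁻¹.det ≠ 0 := by
  rw [Matrix.det_nonsing_inv]
  simpa using hg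

theorem mul_inv [Fact p.Prime] {g : Matrix (Fin n) (Fin n) (ZMod p)} (hg : g.det ≠ 0) :
    g * g⁻¹ = 1 := Matrix.mul_nonsing_inv _ (isUnit_iff_ne_zero.mpr hg)

theorem inv_mul [Fact p.Prime] {g : Matrix (Fin n) (Fin n) (ZMod p)} (hg : g.det ≠ 0) :
    g⁻¹ * g = 1 := Matrix.nonsing_inv_mul _ (isUnit_iff_ne_zero.mpr hg)

/-- symmetry for families, abstract inverses -/
theorem fam_symm {g g' : Matrix (Fin n) (Fin n) (ZMod p)} {h h' : Matrix (Fin m) (Fin m) (ZMod p)}
    (hg : g * g' = 1) (hh : h' * h = 1)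
    {M M' : Fin m → Matrix (Fin n) (Fin n) (ZMod p)}
    (H : ∀ l, act h M' l = cj g (M l)) : ∀ l, act h' M l = cj g' (M' l) := by
  have H' : act h M' = fun l => cj g (M l) := funext H
  intro l
  have h1 : M' = act h' (fun l => cj g (M l)) := by
    rw [← H', ← act_mul, hh, act_one]
  have h2 : cj g' (M' l) = act h' (fun k => cj g' (cj g (M k))) l := by
    conv_lhs => rw [h1]
    rw [cj_act]
  rw [h2]
  congr 1
  funext k
  rw [← cj_mul, hg, cj_one]

theorem fam_trans {g g' : Matrix (Fin n) (Fin n) (ZMod p)} {h h' : Matrix (Fin m) (Fin m) (ZMod p)}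
    {M M' M'' : Fin m → Matrix (Fin n) (Fin n) (ZMod p)}
    (H : ∀ l, act h M' l = cj g (M l)) (H' : ∀ l, act h' M'' l = cj g' (M' l)) :
    ∀ l, act (h * h') M'' l = cj (g * g') (M l) := by
  intro l
  have h2 : act h' M'' = fun l => cj g' (M' l) := funext H'
  rw [act_mul, h2, cj_mul, ← H l, cj_act]

theorem one_symm {g g' : Matrix (Fin n) (Fin n) (ZMod p)} {r r' : ZMod p}
    (hg : g * g' = 1) (hr : r' * r = 1) {M M' : Matrix (Fin n) (Fin n) (ZMod p)}
    (H : r • M' = cj g M) : r' • M = cj g' M' := by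
  have h1 : M' = r' • cj g M := by rw [← H, smul_smul, hr, one_smul]
  rw [h1, cj_smul, ← cj_mul, hg, cj_one]

theorem one_trans {g g' : Matrix (Fin n) (Fin n) (ZMod p)} {r r' : ZMod p}
    {M M' M'' : Matrix (Fin n) (Fin n) (ZMod p)}
    (H : r • M' = cj g M) (H' : r' • M'' = cj g' M') : (r * r') • M'' = cj (g * g') M := by
  rw [mul_smul, H', cj_mul, ← H, cj_smul]

end Pool.NR.H36
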