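import Pool.Agent.H97.NR.Stmts

set_option linter.unusedVariables false

namespace Pool.NR

theorem nre : NREStmt := by
  classical
  intro p _ s a b
  let S : Finset (ZMod p × ZMod p) :=
    Finset.univ.filter fun x => x.2 ^ 2 - s * x.1 ^ 2 = b ^ 2 - s * a ^ 2
  have hne : S.Nonempty := ⟨(a, b), by simp [S]⟩
  obtain ⟨x, hx, hmin⟩ := S.exists_min_image (fun x => x.1.val * p + x.2.val) hne
  simp only [S, Finset.mem_filter, Finset.mem_univ, true_and] at hx
  refine ⟨x.1, x.2, ?_, hx⟩
  intro a' b' h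
  have h1 := hmin (a', b') (by simp only [S, Finset.mem_filter, Finset.mem_univ, true_and]; rw [h, hx])
  simp only at h1
  have hp : 0 < p := (Fact.out : p.Prime).pos
  have hb1 : x.2.val < p := ZMod.val_lt _
  have hb2 : b'.val < p := ZMod.val_lt _
  rcases lt_trichotomy x.1.val a'.val with h2 | h2 | h2
  · exact Or.inl h2
  · refine Or.inr ⟨ZMod.val_injective p h2, ?_⟩
    rw [h2] at h1
    omega
  · exfalso
    have : (a'.val + 1) * p ≤ x.1.val * p := Nat.mul_le_mul_right p h2
    nlinarith

theorem nru : NRUStmt := by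
  intro p _ s a b a' b' h h' he
  rcases h a' b' he with h1 | ⟨h1, h2⟩
  · rcases h' a b he.symm with h3 | ⟨h3, h4⟩
    · omega
    · rw [h3] at h1; omega
  · rcases h' a b he.symm with h3 | ⟨h3, h4⟩
    · rw [h1] at h3; omega
    · exact ⟨h1, ZMod.val_injective p (le_antisymm h2 h4)⟩

end Pool.NR
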