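import Pool.Agent.H36.NR.Mat

set_option linter.unusedVariables false

namespace Pool.NR

open Pool.NR.H36 Matrix

theorem q2a : Q2aStmt := by
  intro p _
  refine ⟨?_, ?_, ?_⟩
  · intro B
    refine ⟨1, 1, by simp, one_ne_zero, (eq_iff _ _ _ _).mpr ?_⟩
    rw [cj_one, one_smul]
  · rintro B B' ⟨g, r, hg, hr, h⟩
    exact ⟨g⁻¹, r⁻¹, det_inv_ne hg, inv_ne_zero hr,
      (eq_iff _ _ _ _).mpr (one_symm (mul_inv hg) (inv_mul_cancel₀ hr) ((eq_iff _ _ _ _).mp h))⟩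
  · rintro B B' B'' ⟨g, r, hg, hr, h⟩ ⟨g', r', hg', hr', h'⟩
    exact ⟨g * g', r * r', by rw [Matrix.det_mul]; exact mul_ne_zero hg hg', mul_ne_zero hr hr',
      (eq_iff _ _ _ _).mpr (one_trans ((eq_iff _ _ _ _).mp h) ((eq_iff _ _ _ _).mp h'))⟩

theorem q3a : Q3aStmt := by
  intro p _
  refine ⟨?_, ?_, ?_⟩
  · intro B
    refine ⟨1, 1, by simp, by simp, (fam_iff _ _ _ _).mpr ?_⟩
    intro l
    rw [cj_one, act_one]
  · rintro B B' ⟨g, h, hg, hh, H⟩
    exact ⟨g⁻¹, h⁻¹, det_inv_ne hg, det_inv_ne hh,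
      (fam_iff _ _ _ _).mpr (fam_symm (mul_inv hg) (inv_mul hh) ((fam_iff _ _ _ _).mp H))⟩
  · rintro B B' B'' ⟨g, h, hg, hh, H⟩ ⟨g', h', hg', hh', H'⟩
    exact ⟨g * g', h * h', by rw [Matrix.det_mul]; exact mul_ne_zero hg hg',
      by rw [Matrix.det_mul]; exact mul_ne_zero hh hh',
      (fam_iff _ _ _ _).mpr (fam_trans ((fam_iff _ _ _ _).mp H) ((fam_iff _ _ _ _).mp H'))⟩

theorem q3c : Q3cStmt := by
  intro p _
  refine ⟨?_, ?_, ?_⟩
  · intro B
    refine ⟨1, by simp, (fam_iff _ _ _ _).mpr ?_⟩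
    intro l
    rw [cj_one, act_one]
  · rintro B B' ⟨g, hg, H⟩
    exact ⟨g⁻¹, det_inv_ne hg,
      (fam_iff _ _ _ _).mpr (fam_symm (mul_inv hg) (inv_mul hg) ((fam_iff _ _ _ _).mp H))⟩
  · rintro B B' B'' ⟨g, hg, H⟩ ⟨g', hg', H'⟩
    exact ⟨g * g', by rw [Matrix.det_mul]; exact mul_ne_zero hg hg',
      (fam_iff _ _ _ _).mpr (fam_trans ((fam_iff _ _ _ _).mp H) ((fam_iff _ _ _ _).mp H'))⟩

/-- block matrix of `Eq2b` -/
def G2 {p : ℕ} (u h1 h2 g11 g12 g21 g22 : ZMod p) : Matrix (Fin 3) (Fin 3) (ZMod p) :=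
  Matrix.of ![![u, 0, 0], ![h1, g11, g12], ![h2, g21, g22]]

theorem G2_mul {p : ℕ} (u h1 h2 g11 g12 g21 g22 u' h1' h2' g11' g12' g21' g22' : ZMod p) :
    G2 u h1 h2 g11 g12 g21 g22 * G2 u' h1' h2' g11' g12' g21' g22' =
      G2 (u * u') (h1 * u' + g11 * h1' + g12 * h2') (h2 * u' + g21 * h1' + g22 * h2')
        (g11 * g11' + g12 * g21') (g11 * g12' + g12 * g22')
        (g21 * g11' + g22 * g21') (g21 * g12' + g22 * g22') := by
  ext i j
  fin_cases i <;> fin_cases j <;> simp [G2, Matrix.mul_apply, Fin.sum_univ_three]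

theorem eq2b_iff {p : ℕ} (B B' : Fin 3 → Fin 3 → ZMod p) :
    Eq2b B B' ↔ ∃ u h1 h2 g11 g12 g21 g22 : ZMod p, u ≠ 0 ∧ g11 * g22 - g12 * g21 ≠ 0 ∧
      u • Matrix.of B' = cj (G2 u h1 h2 g11 g12 g21 g22) (Matrix.of B) := by
  constructor
  · rintro ⟨u, h1, h2, g11, g12, g21, g22, hu, hd, h⟩
    exact ⟨u, h1, h2, g11, g12, g21, g22, hu, hd,
      (eq_iff (G2 u h1 h2 g11 g12 g21 g22) u B B').mp h⟩
  · rintro ⟨u, h1, h2, g11, g12, g21, g22, hu, hd, h⟩
    exact ⟨u, h1, h2, g11, g12, g21, g22, hu, hd,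
      (eq_iff (G2 u h1 h2 g11 g12 g21 g22) u B B').mpr h⟩

theorem q2b : Q2bStmt := by
  intro p _
  refine ⟨?_, ?_, ?_⟩
  · intro B
    refine (eq2b_iff _ _).mpr ⟨1, 0, 0, 1, 0, 0, 1, one_ne_zero, by simp, ?_⟩
    have : G2 (1 : ZMod p) 0 0 1 0 0 1 = 1 := by
      ext i j
      fin_cases i <;> fin_cases j <;> simp [G2]
    rw [this, cj_one, one_smul]
  · intro B B' H
    obtain ⟨u, h1, h2, g11, g12, g21, g22, hu, hd, h⟩ := (eq2b_iff _ _).mp H
    refine (eq2b_iff _ _).mpr ⟨u⁻¹, -(g22 * h1 - g12 * h2) * ((g11 * g22 - g12 * g21)⁻¹ * u⁻¹),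
      -(g11 * h2 - g21 * h1) * ((g11 * g22 - g12 * g21)⁻¹ * u⁻¹),
      g22 * (g11 * g22 - g12 * g21)⁻¹, -g12 * (g11 * g22 - g12 * g21)⁻¹,
      -g21 * (g11 * g22 - g12 * g21)⁻¹, g11 * (g11 * g22 - g12 * g21)⁻¹,
      inv_ne_zero hu, ?_, one_symm ?_ (inv_mul_cancel₀ hu) h⟩
    · have : g22 * (g11 * g22 - g12 * g21)⁻¹ * (g11 * (g11 * g22 - g12 * g21)⁻¹) -
        -g12 * (g11 * g22 - g12 * g21)⁻¹ * (-g21 * (g11 * g22 - g12 * g21)⁻¹) =
          (g11 * g22 - g12 * g21)⁻¹ * ((g11 * g22 - g12 * g21) * (g11 * g22 - g12 * g21)⁻¹) := by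
        ring
      rw [this, mul_inv_cancel₀ hd, mul_one]
      exact inv_ne_zero hd
    · rw [G2_mul]
      have hd' : (g11 * g22 - g12 * g21) * (g11 * g22 - g12 * g21)⁻¹ = 1 := mul_inv_cancel₀ hd
      have hu' : u * u⁻¹ = 1 := mul_inv_cancel₀ hu
      generalize (g11 * g22 - g12 * g21)⁻¹ = d at hd' ⊢
      generalize u⁻¹ = v at hu' ⊢
      ext i j
      fin_cases i <;> fin_cases j <;> simp [G2]
      · exact hu'
      · linear_combination (-h1 * v) * hd'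
      · linear_combination hd'
      · ring
      · linear_combination (-h2 * v) * hd'
      · ring
      · linear_combination hd'
  · intro B B' B'' H H'
    obtain ⟨u, h1, h2, g11, g12, g21, g22, hu, hd, h⟩ := (eq2b_iff _ _).mp H
    obtain ⟨u', h1', h2', g11', g12', g21', g22', hu', hd', h'⟩ := (eq2b_iff _ _).mp H'
    have := one_trans h h'
    rw [G2_mul] at this
    refine (eq2b_iff _ _).mpr ⟨_, _, _, _, _, _, _, mul_ne_zero hu hu', ?_, this⟩
    have e : (g11 * g11' + g12 * g21') * (g21 * g12' + g22 * g22') -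
        (g11 * g12' + g12 * g22') * (g21 * g11' + g22 * g21') =
        (g11 * g22 - g12 * g21) * (g11' * g22' - g12' * g21') := by ring
    rw [e]
    exact mul_ne_zero hd hd'

/-- matrices of `Eq3b` -/
def G3 {p : ℕ} (u k v : ZMod p) : Matrix (Fin 2) (Fin 2) (ZMod p) :=
  Matrix.of ![![u, 0], ![k, v]]

def U3 {p : ℕ} (u e r : ZMod p) : Matrix (Fin 2) (Fin 2) (ZMod p) :=
  Matrix.of ![![u, e], ![0, r]]

theorem eq3b_iff {p : ℕ} (B B' : Fin 2 → Fin 2 → Fin 2 → ZMod p) :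
    Eq3b B B' ↔ ∃ u k v r e : ZMod p, u ≠ 0 ∧ v ≠ 0 ∧ r ≠ 0 ∧
      ∀ l, act (U3 u e r) (fun k => Matrix.of (B' k)) l = cj (G3 u k v) (Matrix.of (B l)) := by
  have key : ∀ u k v r e : ZMod p,
      ((∀ i j, u * B' 0 i j + e * B' 1 i j = ∑ a, ∑ b,
      (![![u, 0], ![k, v]] : Fin 2 → Fin 2 → ZMod p) a i *
      (![![u, 0], ![k, v]] : Fin 2 → Fin 2 → ZMod p) b j * B 0 a b) ∧
    ∀ i j, r * B' 1 i j = ∑ a, ∑ b,
      (![![u, 0], ![k, v]] : Fin 2 → Fin 2 → ZMod p) a i *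
      (![![u, 0], ![k, v]] : Fin 2 → Fin 2 → ZMod p) b j * B 1 a b) ↔
      ∀ l, act (U3 u e r) (fun k => Matrix.of (B' k)) l = cj (G3 u k v) (Matrix.of (B l)) := by
    intro u k v r e
    rw [← fam_iff]
    constructor
    · rintro ⟨h0, h1⟩ i j l
      fin_cases l
      · have := h0 i j
        simpa [U3, G3, Fin.sum_univ_two] using this
      · have := h1 i j
        simpa [U3, G3, Fin.sum_univ_two] using this
    · intro h
      refine ⟨fun i j => ?_, fun i j => ?_⟩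
      · have := h i j 0
        simpa [U3, G3, Fin.sum_univ_two] using this
      · have := h i j 1
        simpa [U3, G3, Fin.sum_univ_two] using this
  constructor
  · rintro ⟨u, k, v, r, e, hu, hv, hr, h⟩
    exact ⟨u, k, v, r, e, hu, hv, hr, (key u k v r e).mp h⟩
  · rintro ⟨u, k, v, r, e, hu, hv, hr, h⟩
    exact ⟨u, k, v, r, e, hu, hv, hr, (key u k v r e).mpr h⟩

theorem G3_mul {p : ℕ} (u k v u' k' v' : ZMod p) :
    G3 u k v * G3 u' k' v' = G3 (u * u') (k * u' + v * k') (v * v') := by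
  ext i j
  fin_cases i <;> fin_cases j <;> simp [G3, Matrix.mul_apply, Fin.sum_univ_two]

theorem U3_mul {p : ℕ} (u e r u' e' r' : ZMod p) :
    U3 u e r * U3 u' e' r' = U3 (u * u') (u * e' + e * r') (r * r') := by
  ext i j
  fin_cases i <;> fin_cases j <;> simp [U3, Matrix.mul_apply, Fin.sum_univ_two]

theorem G3_one {p : ℕ} : G3 (1 : ZMod p) 0 1 = 1 := by
  ext i j
  fin_cases i <;> fin_cases j <;> simp [G3]

theorem U3_one {p : ℕ} : U3 (1 : ZMod p) 0 1 = 1 := by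
  ext i j
  fin_cases i <;> fin_cases j <;> simp [U3]

theorem q3b : Q3bStmt := by
  intro p _
  refine ⟨?_, ?_, ?_⟩
  · intro B
    refine (eq3b_iff _ _).mpr ⟨1, 0, 1, 1, 0, one_ne_zero, one_ne_zero, one_ne_zero, ?_⟩
    intro l
    rw [G3_one, U3_one, cj_one, act_one]
  · intro B B' H
    obtain ⟨u, k, v, r, e, hu, hv, hr, h⟩ := (eq3b_iff _ _).mp H
    refine (eq3b_iff _ _).mpr ⟨u⁻¹, -k * (u⁻¹ * v⁻¹), v⁻¹, r⁻¹, -e * (u⁻¹ * r⁻¹),
      inv_ne_zero hu, inv_ne_zero hv, inv_ne_zero hr, fam_symm ?_ ?_ h⟩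
    · rw [G3_mul, ← G3_one, mul_inv_cancel₀ hu, mul_inv_cancel₀ hv]
      congr 1
      field_simp
      ring
    · rw [U3_mul, ← U3_one, inv_mul_cancel₀ hu, inv_mul_cancel₀ hr]
      congr 1
      field_simp
      ring
  · intro B B' B'' H H'
    obtain ⟨u, k, v, r, e, hu, hv, hr, h⟩ := (eq3b_iff _ _).mp H
    obtain ⟨u', k', v', r', e', hu', hv', hr', h'⟩ := (eq3b_iff _ _).mp H'
    have := fam_trans h h'
    rw [G3_mul, U3_mul] at this
    exact (eq3b_iff _ _).mpr ⟨_, _, _, _, _, mul_ne_zero hu hu', mul_ne_zero hv hv',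
      mul_ne_zero hr hr', this⟩

theorem qt : QTStmt := by
  intro p _
  refine ⟨?_, ?_⟩
  · rintro π π' π'' B B' B'' ⟨g, r, hg, hr, hp, h⟩ ⟨g', r', hg', hr', hp', h'⟩
    refine ⟨g * g', r * r', by rw [Matrix.det_mul]; exact mul_ne_zero hg hg',
      mul_ne_zero hr hr', ?_, (eq_iff _ _ _ _).mpr
        (one_trans ((eq_iff _ _ _ _).mp h) ((eq_iff _ _ _ _).mp h'))⟩
    intro i
    have e1 : r * r' * π'' i = ∑ j, g' j i * (r * π' j) := by
      rw [mul_assoc, hp' i, Finset.mul_sum]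
      refine Finset.sum_congr rfl fun j _ => ?_
      ring
    rw [e1]
    simp only [hp, Matrix.mul_apply, Finset.sum_mul, Finset.mul_sum]
    rw [Finset.sum_comm]
    refine Finset.sum_congr rfl fun j _ => Finset.sum_congr rfl fun k _ => ?_
    ring
  · rintro π π' π'' B B' B'' ⟨g, h, hg, hh, hp, H⟩ ⟨g', h', hg', hh', hp', H'⟩
    refine ⟨g * g', h * h', by rw [Matrix.det_mul]; exact mul_ne_zero hg hg',
      by rw [Matrix.det_mul]; exact mul_ne_zero hh hh', ?_, (fam_iff _ _ _ _).mpr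
        (fam_trans ((fam_iff _ _ _ _).mp H) ((fam_iff _ _ _ _).mp H'))⟩
    intro i l
    have e1 : ∑ k, (h * h') l k * π'' i k = ∑ m, h l m * ∑ k, h' m k * π'' i k := by
      simp only [Matrix.mul_apply, Finset.sum_mul, Finset.mul_sum]
      rw [Finset.sum_comm]
      refine Finset.sum_congr rfl fun j _ => Finset.sum_congr rfl fun k _ => ?_
      ring
    rw [e1]
    simp only [hp']
    have e2 : ∑ m, h l m * ∑ j, g' j i * π' j m = ∑ j, g' j i * ∑ m, h l m * π' j m := by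
      simp only [Finset.mul_sum]
      rw [Finset.sum_comm]
      refine Finset.sum_congr rfl fun j _ => Finset.sum_congr rfl fun k _ => ?_
      ring
    rw [e2]
    simp only [hp, Matrix.mul_apply, Finset.sum_mul, Finset.mul_sum]
    rw [Finset.sum_comm]
    refine Finset.sum_congr rfl fun j _ => Finset.sum_congr rfl fun k _ => ?_
    ring

end Pool.NR
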